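import Pool.Agent.Lib.MP_d431d3_nt.Lower

/-! Exact metric order of the discrepancy of `n α` along integers with even binary digit sum. -/

namespace Pool.Agent.Results.MP_d431d3_nt.IntegralTest

open Filter Pool.Agent.MP_d431d3_nt

theorem result : ∃ κ : ℝ,
    (∀ L : ℕ, (2 : ℝ) ^ (κ * L) / √2 ≤ sinInt L ∧ sinInt L ≤ √2 * (2 : ℝ) ^ (κ * L)) ∧
    ∀ φ : ℝ → ℝ, Monotone φ → (∀ x, 0 < φ x) →
      ((Summable fun n : ℕ => 1 / φ n) → ∀ᵐ α : ℝ, (fun N : ℕ => disc α N) =O[atTop]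
        fun N : ℕ => (N : ℝ) ^ (κ - 1) * Real.log N * φ (Real.log (Real.log N))) ∧
      ((¬Summable fun n : ℕ => 1 / φ n) → ∀ᵐ α : ℝ, ∀ C : ℝ, ∃ᶠ N : ℕ in atTop,
        C * ((N : ℝ) ^ (κ - 1) * Real.log N * φ (Real.log (Real.log N))) ≤ disc α N) := by
  have h1 : (2 : ℝ) ^ Real.logb 2 rho = rho := Real.rpow_logb (by norm_num) (by norm_num) rho_pos
  have h0 : 0 ≤ Real.logb 2 rho := Real.logb_nonneg (by norm_num) one_le_rho
  refine ⟨Real.logb 2 rho, fun L => ?_, fun φ hm hp => ⟨fun hs => ?_, fun hs => ?_⟩⟩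
  · rw [Real.rpow_mul (by norm_num), h1, Real.rpow_natCast, div_le_iff₀ (by positivity), mul_comm]
    exact ⟨rho_le_sinInt L, sinInt_le_rho L⟩
  · filter_upwards [upper h0 h1 hm hp hs] with α hα
    refine (hα.mul (Asymptotics.isBigO_refl (fun N : ℕ => (N : ℝ)⁻¹) atTop)).congr' ?_ ?_ <;>
      filter_upwards [eventually_gt_atTop 0] with N hN <;>
      have : (N : ℝ) ≠ 0 := by positivity
    · field_simp
    · rw [Real.rpow_sub_one this]; field_simp
  · filter_upwards [lower h0 h1 hm hp hs] with α hα C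
    refine ((hα C).and_eventually (eventually_gt_atTop 0)).mono fun N ⟨a, hN⟩ => ?_
    have : (0 : ℝ) < N := by positivity
    refine le_of_mul_le_mul_left (le_trans (le_of_eq ?_) a) this
    rw [Real.rpow_sub_one this.ne']; field_simp

end Pool.Agent.Results.MP_d431d3_nt.IntegralTest
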